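import Pool.Agent.P.MP_de432b_gt.Defs

/-! Metric properties of the box and observable distances. -/

namespace Pool.Agent.P.MP_de432b_gt

open MeasureTheory Set ProbabilityTheory unitInterval
open scoped ENNReal

instance (A : MMSpace) : Nonempty A.X := nonempty_of_isProbabilityMeasure A.μ

theorem exists_param (A : MMSpace) : ∃ φ, IsParam A φ := A.μ.exists_measurable_map_eq

theorem IsParam.mp {A : MMSpace} {φ : I → A.X} (h : IsParam A φ) :
    MeasurePreserving φ volume A.μ := ⟨h.1, h.2⟩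

theorem isParam_of_mp {A : MMSpace} {φ : I → A.X} (h : MeasurePreserving φ volume A.μ) :
    IsParam A φ := ⟨h.measurable, h.map_eq⟩

theorem IsParam.comp {A : MMSpace} {φ : I → A.X} (h : IsParam A φ) {θ : I → I}
    (hθ : MeasurePreserving θ volume volume) : IsParam A (φ ∘ θ) :=
  isParam_of_mp (h.mp.comp hθ)

theorem exists_mp {Y : Type} [MeasurableSpace Y] [StandardBorelSpace Y] (μ : Measure Y)
    [IsProbabilityMeasure μ] : ∃ η : I → Y, MeasurePreserving η volume μ := by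
  have : Nonempty Y := nonempty_of_isProbabilityMeasure μ
  obtain ⟨f, hf, h⟩ := μ.exists_measurable_map_eq
  exact ⟨f, hf, h⟩

/-- Two parameters of one space agree after measure-preserving changes of variable. -/
theorem glue {B : MMSpace} {ψ ψ' : I → B.X} (h : IsParam B ψ) (h' : IsParam B ψ') :
    ∃ θ θ' : I → I, MeasurePreserving θ volume volume ∧ MeasurePreserving θ' volume volume ∧
      ∀ᵐ s, ψ (θ s) = ψ' (θ' s) := by
  set κ : Kernel B.X I := condDistrib id ψ' volume with hκ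
  have hc : B.μ.compProd κ = Measure.map (fun a => (ψ' a, a)) volume := by
    have := compProd_map_condDistrib (X := ψ') (Y := (id : I → I)) (μ := volume) (mβ := B.ms)
      measurable_id.aemeasurable
    rw [h'.2] at this
    exact this
  obtain ⟨f, hf, hfκ⟩ := κ.exists_measurable_map_eq_unitInterval
  obtain ⟨η, hη⟩ := exists_mp ((volume : Measure I).prod (volume : Measure I))
  have hG : Measurable fun p : I × I => (ψ p.1, f (ψ p.1) p.2) := by
    have h1 : Measurable fun p : I × I => ψ p.1 := h.1.comp measurable_fst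
    exact h1.prodMk (hf.comp (h1.prodMk measurable_snd))
  have hmap : Measure.map (fun p : I × I => (ψ p.1, f (ψ p.1) p.2)) (volume.prod volume) =
      Measure.map (fun a => (ψ' a, a)) volume := by
    rw [← hc]
    ext S hS
    rw [Measure.map_apply hG hS, Measure.prod_apply (hG hS), Measure.compProd_apply hS, ← h.2,
      lintegral_map (Kernel.measurable_kernel_prodMk_left hS) h.1]
    refine lintegral_congr fun s => ?_
    rw [← hfκ, Measure.map_apply (hf.of_uncurry_left) (measurable_prodMk_left hS)]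
    rfl
  have hψ' : Measurable fun a : I => (ψ' a, a) := h'.1.prodMk measurable_id
  have hG' : MeasurePreserving (fun p : I × I => (ψ p.1, f (ψ p.1) p.2)) (volume.prod volume)
      (Measure.map (fun a => (ψ' a, a)) volume) := ⟨hG, hmap⟩
  have hsnd : MeasurePreserving (Prod.snd : B.X × I → I)
      (Measure.map (fun a => (ψ' a, a)) volume) volume :=
    ⟨measurable_snd, by rw [Measure.map_map measurable_snd hψ']; exact Measure.map_id⟩
  refine ⟨Prod.fst ∘ η, Prod.snd ∘ (fun p : I × I => (ψ p.1, f (ψ p.1) p.2)) ∘ η,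
    measurePreserving_fst.comp hη, hsnd.comp (hG'.comp hη), ?_⟩
  have hm : MeasurableSet {q : B.X × I | q.1 = ψ' q.2} :=
    measurableSet_eq_fun measurable_fst (h'.1.comp measurable_snd)
  have h1 : ∀ᵐ q ∂(Measure.map (fun a => (ψ' a, a)) (volume : Measure I)), q.1 = ψ' q.2 := by
    rw [ae_map_iff hψ'.aemeasurable hm]
    exact Filter.Eventually.of_forall fun _ => rfl
  exact (hG'.comp hη).quasiMeasurePreserving.ae h1

theorem one_sub_le_iff {J : Set I} (hJ : MeasurableSet J) {ε : ℝ≥0∞} :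
    1 - ε ≤ volume J ↔ volume Jᶜ ≤ ε := by
  rw [prob_compl_eq_one_sub hJ, tsub_le_iff_right, tsub_le_iff_left]

theorem box_le {A B : MMSpace} {ε : ℝ≥0∞} {φ : I → A.X} {ψ : I → B.X} {J : Set I}
    (hφ : IsParam A φ) (hψ : IsParam B ψ) (hJ : volume Jᶜ ≤ ε)
    (h : ∀ s ∈ J, ∀ t ∈ J, edist (dist (φ s) (φ t)) (dist (ψ s) (ψ t)) ≤ ε) : box A B ≤ ε := by
  refine sInf_le ⟨φ, ψ, (toMeasurable volume Jᶜ)ᶜ, hφ, hψ, (measurableSet_toMeasurable _ _).compl,
    ?_, ?_⟩
  · rw [one_sub_le_iff (measurableSet_toMeasurable _ _).compl, compl_compl, measure_toMeasurable]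
    exact hJ
  · have hs : (toMeasurable volume Jᶜ)ᶜ ⊆ J := by
      rw [compl_subset_comm]
      exact subset_toMeasurable _ _
    exact fun s hs' t ht => h s (hs hs') t (hs ht)

theorem le_box {A B : MMSpace} {r : ℝ≥0∞}
    (h : ∀ (ε : ℝ≥0∞) (φ : I → A.X) (ψ : I → B.X) (J : Set I), IsParam A φ → IsParam B ψ →
      MeasurableSet J → volume Jᶜ ≤ ε →
      (∀ s ∈ J, ∀ t ∈ J, edist (dist (φ s) (φ t)) (dist (ψ s) (ψ t)) ≤ ε) → r ≤ ε) :
    r ≤ box A B := by
  refine le_sInf ?_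
  rintro ε ⟨φ, ψ, J, h1, h2, h3, h4, h5⟩
  exact h ε φ ψ J h1 h2 h3 ((one_sub_le_iff h3).1 h4) h5

theorem box_comm (A B : MMSpace) : box A B = box B A := by
  have : ∀ A B : MMSpace, box A B ≤ box B A := fun A B =>
    le_box fun ε φ ψ J h1 h2 _ h4 h5 =>
      box_le h2 h1 h4 fun s hs t ht => by rw [edist_comm]; exact h5 s hs t ht
  exact le_antisymm (this A B) (this B A)

theorem le_sInf_add_sInf {S T : Set ℝ≥0∞} {a : ℝ≥0∞} (h : ∀ x ∈ S, ∀ y ∈ T, a ≤ x + y) :
    a ≤ sInf S + sInf T := by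
  rw [sInf_eq_iInf, sInf_eq_iInf]
  exact ENNReal.le_iInf₂_add_iInf₂ h

theorem box_triangle (A B C : MMSpace) : box A C ≤ box A B + box B C := by
  refine le_sInf_add_sInf ?_
  rintro ε ⟨φ, ψ, J, h1, h2, h3, h4, h5⟩ ε' ⟨ψ', χ, J', g1, g2, g3, g4, g5⟩
  rw [one_sub_le_iff h3] at h4
  rw [one_sub_le_iff g3] at g4
  obtain ⟨θ, θ', a, b, c⟩ := glue h2 g1
  refine box_le (J := θ ⁻¹' J ∩ θ' ⁻¹' J' ∩ {s | ψ (θ s) = ψ' (θ' s)}) (h1.comp a) (g2.comp b)
    ?_ ?_
  · rw [compl_inter, compl_inter]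
    refine (measure_union_le _ _).trans ?_
    have : volume {s | ψ (θ s) = ψ' (θ' s)}ᶜ = 0 := c
    rw [this, add_zero]
    refine (measure_union_le _ _).trans (add_le_add ?_ ?_)
    · rw [← preimage_compl, a.measure_preimage h3.compl.nullMeasurableSet]
      exact h4
    · rw [← preimage_compl, b.measure_preimage g3.compl.nullMeasurableSet]
      exact g4
  · rintro s ⟨⟨s1, s2⟩, s3⟩ t ⟨⟨t1, t2⟩, t3⟩
    refine (edist_triangle _ (dist (ψ (θ s)) (ψ (θ t))) _).trans (add_le_add (h5 _ s1 _ t1) ?_)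
    rw [mem_ofPred_eq] at s3 t3
    rw [s3, t3]
    exact g5 _ s2 _ t2

theorem supp_meas (A : MMSpace) : MeasurableSet A.μ.support :=
  Measure.isClosed_support.measurableSet

theorem map_comap_supp (A : MMSpace) :
    (A.μ.comap (Subtype.val : A.μ.support → A.X)).map Subtype.val = A.μ := by
  rw [map_comap_subtype_coe (supp_meas A)]
  exact Measure.restrict_eq_self_of_ae_mem Measure.support_mem_ae

theorem Iso.exists_map {A B : MMSpace} (h : Iso A B) : ∃ F : A.X → B.X,
    MeasurePreserving F A.μ B.μ ∧ ∀ x ∈ A.μ.support, ∀ y ∈ A.μ.support,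
      dist (F x) (F y) = dist x y := by
  obtain ⟨f, hf, hm⟩ := h
  have hemb := MeasurableEmbedding.subtype_coe (supp_meas A)
  have hg : Measurable (Subtype.val ∘ f) :=
    measurable_subtype_coe.comp hf.continuous.measurable
  set F : A.X → B.X := Function.extend Subtype.val (Subtype.val ∘ f)
    (fun _ => Classical.arbitrary _) with hF
  have hFm : Measurable F := hemb.measurable_extend hg measurable_const
  have hFv : F ∘ Subtype.val = Subtype.val ∘ f := Function.extend_comp Subtype.val_injective _ _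
  refine ⟨F, ⟨hFm, ?_⟩, ?_⟩
  · rw [← map_comap_supp A, Measure.map_map hFm measurable_subtype_coe, hFv,
      ← Measure.map_map measurable_subtype_coe hf.continuous.measurable, hm, map_comap_supp]
  · intro x hx y hy
    have e1 : F x = f ⟨x, hx⟩ := congrFun hFv ⟨x, hx⟩
    have e2 : F y = f ⟨y, hy⟩ := congrFun hFv ⟨y, hy⟩
    rw [e1, e2, ← Subtype.dist_eq, hf.dist_eq, Subtype.dist_eq]

theorem box_iso {A B : MMSpace} (h : Iso A B) : box A B = 0 := by
  obtain ⟨F, hF, hd⟩ := h.exists_map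
  obtain ⟨φ, hφ⟩ := exists_param A
  refine le_antisymm (box_le (J := φ ⁻¹' A.μ.support) hφ (isParam_of_mp (hF.comp hφ.mp)) ?_ ?_)
    bot_le
  · rw [← preimage_compl, hφ.mp.measure_preimage (supp_meas A).compl.nullMeasurableSet,
      Measure.measure_compl_support]
  · intro s hs t ht
    simp [hd _ hs _ ht]

theorem box_self (A : MMSpace) : box A A = 0 := by
  obtain ⟨φ, hφ⟩ := exists_param A
  exact le_antisymm (box_le (J := univ) hφ hφ (by simp) (by simp)) bot_le

/-- An isometric embedding carrying the measure gives an isomorphism. -/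
theorem iso_of_isometry {A B : MMSpace} (j : A.X → B.X) (hj : Isometry j)
    (hm : A.μ.map j = B.μ) : Iso A B := by
  have hjm : Measurable j := hj.continuous.measurable
  have hs : ∀ x ∈ A.μ.support, j x ∈ B.μ.support := by
    intro x hx
    rw [Measure.mem_support_iff_forall] at hx ⊢
    intro U hU
    rw [← hm]
    exact (hx _ (hj.continuous.continuousAt hU)).trans_le
      (Measure.le_map_apply hjm.aemeasurable U)
  have hf : Isometry fun x : A.μ.support => (⟨j x, hs x x.2⟩ : B.μ.support) :=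
    Isometry.of_dist_eq fun x y => by
      rw [Subtype.dist_eq, Subtype.dist_eq]; exact hj.dist_eq _ _
  refine ⟨_, hf, ?_⟩
  have hemb := MeasurableEmbedding.subtype_coe (supp_meas B)
  apply hemb.map_injective
  rw [map_comap_supp, Measure.map_map measurable_subtype_coe hf.continuous.measurable]
  refine Eq.trans ?_ hm
  conv_rhs => rw [← map_comap_supp A]
  rw [Measure.map_map hjm measurable_subtype_coe]
  rfl

/-! ### The Ky Fan distance -/

theorem dKF_le {f g : I → ℝ} {ε : ℝ≥0∞} (h : volume {s | ε < edist (f s) (g s)} ≤ ε) :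
    dKF f g ≤ ε := sInf_le h

theorem dKF_lt {f g : I → ℝ} {ε : ℝ≥0∞} (h : dKF f g < ε) :
    volume {s | ε < edist (f s) (g s)} ≤ ε := by
  obtain ⟨ε', h1, h2⟩ := sInf_lt_iff.1 h
  refine le_trans (measure_mono ?_) (le_trans h1 h2.le)
  exact fun s hs => h2.trans hs

theorem dKF_comm (f g : I → ℝ) : dKF f g = dKF g f := by
  simp only [dKF, edist_comm]

theorem dKF_triangle (f g h : I → ℝ) : dKF f h ≤ dKF f g + dKF g h := by
  refine le_sInf_add_sInf fun x hx y hy => dKF_le ?_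
  refine le_trans (measure_mono ?_) ((measure_union_le _ _).trans (add_le_add hx hy))
  intro s hs
  by_contra hn
  simp only [mem_union, mem_ofPred_eq, not_or, not_lt] at hn hs
  exact absurd ((edist_triangle _ (g s) _).trans (add_le_add hn.1 hn.2)) (not_le.2 hs)

theorem dKF_comp {f g : I → ℝ} (hf : Measurable f) (hg : Measurable g) {θ : I → I}
    (hθ : MeasurePreserving θ volume volume) : dKF (f ∘ θ) (g ∘ θ) = dKF f g := by
  unfold dKF
  congr 1
  ext ε
  have hm : MeasurableSet {s | ε < edist (f s) (g s)} :=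
    measurableSet_lt measurable_const (hf.edist hg)
  rw [mem_ofPred_eq, mem_ofPred_eq, ← hθ.measure_preimage hm.nullMeasurableSet]
  rfl

theorem dKF_congr {f g g' : I → ℝ} (h : ∀ᵐ s, g s = g' s) : dKF f g = dKF f g' := by
  unfold dKF
  congr 1
  ext ε
  have : volume {s | ε < edist (f s) (g s)} = volume {s | ε < edist (f s) (g' s)} := by
    refine measure_congr ?_
    filter_upwards [h] with s hs
    change (ε < edist (f s) (g s)) = (ε < edist (f s) (g' s))
    rw [hs]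
  rw [mem_ofPred_eq, mem_ofPred_eq, this]

/-- one half of the Hausdorff distance -/
noncomputable def half {A B : MMSpace} (φ : I → A.X) (ψ : I → B.X) : ℝ≥0∞ :=
  ⨆ f ∈ lipPull A φ, ⨅ g ∈ lipPull B ψ, dKF f g

theorem dH_eq {A B : MMSpace} (φ : I → A.X) (ψ : I → B.X) :
    dH (lipPull A φ) (lipPull B ψ) = max (half φ ψ) (half ψ φ) := by
  simp only [dH, half, dKF_comm]

theorem half_le {A B : MMSpace} {φ : I → A.X} {ψ : I → B.X} {r : ℝ≥0∞}
    (h : ∀ f : A.X → ℝ, LipschitzWith 1 f → ∀ ε, r < ε →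
      ∃ g : B.X → ℝ, LipschitzWith 1 g ∧ dKF (f ∘ φ) (g ∘ ψ) ≤ ε) : half φ ψ ≤ r := by
  refine iSup₂_le ?_
  rintro _ ⟨f, hf, rfl⟩
  refine le_of_forall_gt_imp_ge_of_dense fun ε hε => ?_
  obtain ⟨g, hg, h1⟩ := h f hf ε hε
  exact (iInf₂_le (g ∘ ψ) ⟨g, hg, rfl⟩).trans h1

theorem half_lt {A B : MMSpace} {φ : I → A.X} {ψ : I → B.X} {ε : ℝ≥0∞} (h : half φ ψ < ε)
    (f : A.X → ℝ) (hf : LipschitzWith 1 f) :
    ∃ g : B.X → ℝ, LipschitzWith 1 g ∧ dKF (f ∘ φ) (g ∘ ψ) < ε := by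
  have h1 : (⨅ g ∈ lipPull B ψ, dKF (f ∘ φ) g) < ε :=
    lt_of_le_of_lt (le_iSup₂_of_le (f := fun f (_ : f ∈ lipPull A φ) =>
      ⨅ g ∈ lipPull B ψ, dKF f g) (f ∘ φ) ⟨f, hf, rfl⟩ le_rfl) h
  simp only [iInf_lt_iff] at h1
  obtain ⟨_, ⟨g, hg, rfl⟩, h2⟩ := h1
  exact ⟨g, hg, h2⟩

theorem exists_split {a b ε : ℝ≥0∞} (h : a + b < ε) :
    ∃ x, a < x ∧ ∃ y, b < y ∧ x + y ≤ ε := by
  obtain ⟨r, hr, h1⟩ := ENNReal.lt_iff_exists_add_pos_lt.1 h
  have ha : a ≠ ⊤ := (le_self_add.trans_lt (h.trans_le le_top)).ne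
  have hb : b ≠ ⊤ := (le_add_self.trans_lt (h.trans_le le_top)).ne
  have hr' : (r : ℝ≥0∞) / 2 ≠ 0 := by simp [hr.ne']
  refine ⟨a + r / 2, ENNReal.lt_add_right ha hr', b + r / 2, ENNReal.lt_add_right hb hr', ?_⟩
  rw [add_add_add_comm, ENNReal.add_halves]
  exact h1.le

theorem half_glue {A B C : MMSpace} {φ : I → A.X} {ψ ψ' : I → B.X} {χ : I → C.X}
    (hφ : Measurable φ) (hψ : Measurable ψ) (hψ' : Measurable ψ') (hχ : Measurable χ)
    {θ θ' : I → I} (a : MeasurePreserving θ volume volume)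
    (b : MeasurePreserving θ' volume volume) (c : ∀ᵐ s, ψ (θ s) = ψ' (θ' s)) :
    half (φ ∘ θ) (χ ∘ θ') ≤ half φ ψ + half ψ' χ := by
  refine half_le fun f hf ε hε => ?_
  obtain ⟨x, hx, y, hy, hxy⟩ := exists_split hε
  obtain ⟨g, hg, h1⟩ := half_lt hx f hf
  obtain ⟨h, hh, h2⟩ := half_lt hy g hg
  refine ⟨h, hh, (dKF_triangle _ (g ∘ ψ ∘ θ) _).trans ?_⟩
  have e1 := dKF_comp (hf.continuous.measurable.comp hφ) (hg.continuous.measurable.comp hψ) a
  have e2 := dKF_comp (hg.continuous.measurable.comp hψ') (hh.continuous.measurable.comp hχ) b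
  have e3 : dKF (g ∘ ψ ∘ θ) (h ∘ χ ∘ θ') = dKF ((g ∘ ψ') ∘ θ') ((h ∘ χ) ∘ θ') := by
    rw [dKF_comm, dKF_comm ((g ∘ ψ') ∘ θ')]
    refine dKF_congr ?_
    filter_upwards [c] with s hs
    simp [hs]
  rw [e3, e2]
  refine le_trans (add_le_add (le_of_eq e1) le_rfl) ((add_le_add h1.le h2.le).trans hxy)

theorem dconc_le {A B : MMSpace} {φ : I → A.X} {ψ : I → B.X} (hφ : IsParam A φ)
    (hψ : IsParam B ψ) {r : ℝ≥0∞} (h1 : half φ ψ ≤ r) (h2 : half ψ φ ≤ r) : dconc A B ≤ r :=
  le_trans (sInf_le ⟨φ, ψ, hφ, hψ, (dH_eq φ ψ).symm⟩) (max_le h1 h2)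

theorem le_dconc {A B : MMSpace} {r : ℝ≥0∞}
    (h : ∀ (φ : I → A.X) (ψ : I → B.X), IsParam A φ → IsParam B ψ →
      r ≤ max (half φ ψ) (half ψ φ)) : r ≤ dconc A B := by
  refine le_sInf ?_
  rintro _ ⟨φ, ψ, h1, h2, rfl⟩
  rw [dH_eq]
  exact h φ ψ h1 h2

theorem dconc_comm (A B : MMSpace) : dconc A B = dconc B A := by
  have : ∀ A B : MMSpace, dconc A B ≤ dconc B A := fun A B =>
    le_dconc fun φ ψ h1 h2 => dconc_le h2 h1 (le_max_right _ _) (le_max_left _ _)
  exact le_antisymm (this A B) (this B A)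

theorem dconc_triangle (A B C : MMSpace) : dconc A C ≤ dconc A B + dconc B C := by
  refine le_sInf_add_sInf ?_
  rintro _ ⟨φ, ψ, h1, h2, rfl⟩ _ ⟨ψ', χ, g1, g2, rfl⟩
  rw [dH_eq, dH_eq]
  obtain ⟨θ, θ', a, b, c⟩ := glue h2 g1
  refine dconc_le (h1.comp a) (g2.comp b) ?_ ?_
  · exact (half_glue h1.1 h2.1 g1.1 g2.1 a b c).trans
      (add_le_add (le_max_left _ _) (le_max_left _ _))
  · refine (half_glue g2.1 g1.1 h2.1 h1.1 b a (c.mono fun _ h => h.symm)).trans ?_
    rw [add_comm]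
    exact add_le_add (le_max_right _ _) (le_max_right _ _)

/-- Approximate McShane extension. -/
theorem exists_ext {S P : Type} [PseudoMetricSpace P] (j : S → P) (h : S → ℝ) {e : ℝ}
    (H : ∀ a b, h a - h b ≤ dist (j a) (j b) + e) :
    ∃ g : P → ℝ, LipschitzWith 1 g ∧ ∀ a, |h a - g (j a)| ≤ e := by
  rcases isEmpty_or_nonempty S with hS | ⟨⟨a0⟩⟩
  · exact ⟨fun _ => 0, (LipschitzWith.const 0).weaken zero_le_one, fun a => hS.elim a⟩
  have : Nonempty S := ⟨a0⟩
  have hb : ∀ p, BddBelow (range fun a => h a + dist p (j a)) := by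
    intro p
    refine ⟨h a0 - e - dist p (j a0), ?_⟩
    rintro _ ⟨a, rfl⟩
    have h1 := H a0 a
    have h2 := dist_triangle_left (j a0) (j a) p
    simp only
    linarith
  refine ⟨fun p => ⨅ a, (h a + dist p (j a)), ?_, fun a => ?_⟩
  · refine LipschitzWith.of_le_add fun p q => ?_
    rw [← sub_le_iff_le_add]
    refine le_ciInf fun a => ?_
    have h1 := ciInf_le (hb p) a
    have h2 := dist_triangle p q (j a)
    linarith
  · have h1 := ciInf_le (hb (j a)) a
    have h0 := H a a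
    have h2 : h a - e ≤ ⨅ b, (h b + dist (j a) (j b)) := le_ciInf fun b => by linarith [H a b]
    simp only [dist_self, add_zero] at h1 h0
    rw [abs_le]
    constructor <;> linarith

theorem half_le_of_box {A B : MMSpace} {ε : ℝ≥0∞} {φ : I → A.X} {ψ : I → B.X} {J : Set I}
    (hJ : volume Jᶜ ≤ ε)
    (h : ∀ s ∈ J, ∀ t ∈ J, edist (dist (φ s) (φ t)) (dist (ψ s) (ψ t)) ≤ ε) : half φ ψ ≤ ε := by
  by_cases ht : ε = ⊤
  · simp [ht]
  obtain ⟨e, he, rfl⟩ : ∃ e : ℝ, 0 ≤ e ∧ ε = ENNReal.ofReal e :=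
    ⟨ε.toReal, ENNReal.toReal_nonneg, (ENNReal.ofReal_toReal ht).symm⟩
  refine half_le fun f hf ε' hε' => ?_
  obtain ⟨g, hg, h1⟩ := exists_ext (fun s : J => ψ s) (fun s : J => f (φ s)) (e := e) (by
    intro a b
    have h1 := h a a.2 b b.2
    rw [edist_le_ofReal he, Real.dist_eq, abs_le] at h1
    have h2 := hf.dist_le_mul (φ a) (φ b)
    rw [Real.dist_eq, NNReal.coe_one, one_mul, abs_le] at h2
    linarith)
  refine ⟨g, hg, le_trans (dKF_le (le_trans (measure_mono ?_) hJ)) hε'.le⟩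
  intro s hs hsJ
  have := h1 ⟨s, hsJ⟩
  rw [← Real.dist_eq, ← edist_le_ofReal he] at this
  exact absurd this (not_le.2 hs)

theorem dconc_le_box (A B : MMSpace) : dconc A B ≤ box A B :=
  le_box fun _ _ _ _ h1 h2 _ h4 h5 => dconc_le h1 h2 (half_le_of_box h4 h5)
    (half_le_of_box h4 fun s hs t ht => by rw [edist_comm]; exact h5 s hs t ht)

end Pool.Agent.P.MP_de432b_gt
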