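import Pool.Agent.P.MP_de432b_gt.Hom

/-! Contractibility of the punctured space. -/

namespace Pool.Agent.P.MP_de432b_gt

open MeasureTheory Set ProbabilityTheory unitInterval Filter Topology
open scoped ENNReal

theorem cls_iso {A B : MMSpace} (h : Iso A B) : cls A = cls B := Quot.sound h

theorem iso_zero (A : MMSpace) : Iso A (HH A 0) := by
  have hj : Isometry fun x => jH A 0 (x, false) :=
    Isometry.of_dist_eq fun x y => by simp [dist_jH]
  refine iso_of_isometry _ hj ?_
  have e : jH A 0 = (fun x => jH A 0 (x, false)) ∘ Prod.fst := by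
    funext p
    apply eq_of_dist_eq_zero
    simp [dist_jH]
  rw [← (jH_mp A 0).map_eq, e, ← Measure.map_map hj.continuous.measurable measurable_fst,
    measurePreserving_fst.map_eq]
  rfl

/-- two points -/
def Two : Type := Bool

instance : Finite Two := inferInstanceAs (Finite Bool)

noncomputable instance : MetricSpace Two :=
  MetricSpace.induced (fun b : Two => ee b)
    (fun b c h => by cases b <;> cases c <;> simp_all [ee]) inferInstance

noncomputable instance : MeasurableSpace Two := borel Two

instance : BorelSpace Two := ⟨rfl⟩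

/-- the identity map -/
def toTwo (b : Bool) : Two := b

/-- the two-point space -/
noncomputable def two : MMSpace :=
  haveI : IsProbabilityMeasure (nu.map toTwo) :=
    Measure.isProbabilityMeasure_map (Measurable.of_discrete).aemeasurable
  { X := Two, μ := nu.map toTwo }

theorem iso_one (A : MMSpace) : Iso two (HH A 1) := by
  obtain ⟨x0⟩ : Nonempty A.X := inferInstance
  have hj : Isometry fun b : two.X => jH A 1 (x0, b) :=
    Isometry.of_dist_eq fun x y => by
      rw [dist_jH]
      simp only [Icc.coe_one, sub_self, zero_mul, one_mul, zero_add]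
      rfl
  refine iso_of_isometry _ hj ?_
  have e : jH A 1 = ((fun b : two.X => jH A 1 (x0, b)) ∘ toTwo) ∘ Prod.snd := by
    funext p
    apply eq_of_dist_eq_zero
    simp [dist_jH, toTwo]
  rw [← (jH_mp A 1).map_eq, e, ← Measure.map_map Measurable.of_discrete measurable_snd,
    measurePreserving_snd.map_eq, ← Measure.map_map hj.continuous.measurable Measurable.of_discrete]
  rfl

/-- the support is one point -/
def IsPt (A : MMSpace) : Prop := A.μ.support.Subsingleton

theorem supp_nonempty (A : MMSpace) : A.μ.support.Nonempty :=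
  Measure.nonempty_support (IsProbabilityMeasure.ne_zero _)

theorem isPt_iso {A B : MMSpace} (h : Iso A B) : IsPt A ↔ IsPt B := by
  constructor
  · intro hA
    obtain ⟨F, hF, -⟩ := h.exists_map
    obtain ⟨a, ha⟩ := supp_nonempty A
    refine Set.Subsingleton.anti (subsingleton_singleton (a := F a)) ?_
    refine Measure.support_subset_of_isClosed isClosed_singleton ?_
    rw [mem_ae_iff, ← hF.measure_preimage (measurableSet_singleton _).compl.nullMeasurableSet]
    refine measure_mono_null ?_ Measure.measure_compl_support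
    intro x hx hx'
    exact hx (by rw [hA hx' ha]; rfl)
  · intro hB
    obtain ⟨f, hf, -⟩ := h
    intro x hx y hy
    have : f ⟨x, hx⟩ = f ⟨y, hy⟩ := Subtype.ext (hB (f ⟨x, hx⟩).2 (f ⟨y, hy⟩).2)
    exact congrArg Subtype.val (hf.injective this)

theorem isPt_cls {A B : MMSpace} (h : cls A = cls B) : IsPt A ↔ IsPt B := by
  have := Quot.eqvGen_exact h
  clear h
  induction this with
  | rel _ _ h => exact isPt_iso h
  | refl => rfl
  | symm a b h ih => exact ih.symm
  | trans a b c h1 h2 ih1 ih2 => exact ih1.trans ih2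

theorem cls_eq_pt {A : MMSpace} (hA : IsPt A) : cls A = cls pt := by
  obtain ⟨a, ha⟩ := supp_nonempty A
  refine (cls_iso (iso_of_isometry (A := pt) (fun _ => a)
    (Isometry.of_dist_eq fun x y => ?_) ?_)).symm
  · have : x = y := Subsingleton.elim (α := Unit) x y
    simp [this]
  · rw [Measure.map_const, measure_univ, one_smul]
    have h1 : ∀ᵐ x ∂A.μ, a = id x := by
      filter_upwards [Measure.support_mem_ae (μ := A.μ)] with x hx using hA ha hx
    have h2 := Measure.map_congr (mβ := A.ms) (f := fun _ => a) h1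
    rw [Measure.map_const, measure_univ, one_smul, Measure.map_id] at h2
    exact h2

theorem jH_mem {A : MMSpace} (t : I) {x : A.X} (hx : x ∈ A.μ.support) (b : Bool) :
    jH A t (x, b) ∈ (HH A t).μ.support := by
  rw [Measure.mem_support_iff_forall] at hx ⊢
  intro U hU
  rw [← (jH_mp A t).map_eq]
  refine lt_of_lt_of_le ?_ (Measure.le_map_apply (jH_mp A t).measurable.aemeasurable U)
  have hc : Continuous fun y => jH A t (y, b) := (continuous_jH A t).comp (by fun_prop)
  have h1 := hx _ (hc.continuousAt hU)
  refine lt_of_lt_of_le ?_ (measure_mono (s := ((fun y => jH A t (y, b)) ⁻¹' U) ×ˢ {b}) ?_)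
  · rw [Measure.prod_prod]
    exact ENNReal.mul_pos h1.ne' (nu_pos b).ne'
  · rintro ⟨y, c⟩ ⟨h1, h2⟩
    obtain rfl : c = b := h2
    exact h1

theorem HH_ne {A : MMSpace} (hA : cls A ≠ cls pt) (t : I) : cls (HH A t) ≠ cls pt := by
  intro h
  have h1 : IsPt (HH A t) := (isPt_cls h).2 fun x _ y _ => Subsingleton.elim (α := Unit) x y
  apply hA (cls_eq_pt ?_)
  obtain ⟨a, ha⟩ := supp_nonempty A
  have h2 := dist_eq_zero.2 (h1 (jH_mem t ha true) (jH_mem t ha false))
  have ht : (t : ℝ) = 0 := by simpa [dist_jH, ee] using h2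
  intro x hx y hy
  have h3 := dist_eq_zero.2 (h1 (jH_mem t hx true) (jH_mem t hy true))
  simpa [dist_jH, ht] using h3

/-- the properties of a distance that are used -/
structure Good (D : MMSpace → MMSpace → ℝ≥0∞) : Prop where
  le_box : ∀ A B, D A B ≤ box A B
  comm : ∀ A B, D A B = D B A
  tri : ∀ A B C, D A C ≤ D A B + D B C
  hh : ∀ A B t, D (HH A t) (HH B t) ≤ 2 * D A B

theorem good_box : Good box :=
  ⟨fun _ _ => le_rfl, box_comm, box_triangle, fun A B t => (box_HH A B t).trans (by
    rw [two_mul]; exact le_self_add)⟩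

theorem good_dconc : Good dconc := ⟨dconc_le_box, dconc_comm, dconc_triangle, dconc_HH⟩

variable {D : MMSpace → MMSpace → ℝ≥0∞}

theorem Good.zero (hD : Good D) {A B : MMSpace} (h : cls A = cls B) : D A B = 0 := by
  have := Quot.eqvGen_exact h
  clear h
  induction this with
  | rel _ _ h => exact le_antisymm ((hD.le_box _ _).trans (box_iso h).le) bot_le
  | refl => exact le_antisymm ((hD.le_box _ _).trans (box_self _).le) bot_le
  | symm a b h ih => rw [hD.comm]; exact ih
  | trans a b c h1 h2 ih1 ih2 =>
    have := hD.tri a b c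
    rw [ih1, ih2, add_zero] at this
    exact le_antisymm this bot_le

theorem Good.congr (hD : Good D) {A A' B B' : MMSpace} (h : cls A = cls A') (g : cls B = cls B') :
    D A B = D A' B' := by
  have key : ∀ {A A' B B' : MMSpace}, cls A = cls A' → cls B = cls B' → D A B ≤ D A' B' := by
    intro A A' B B' h g
    have h1 := hD.tri A A' B
    have h2 := hD.tri A' B' B
    rw [hD.zero h, zero_add] at h1
    rw [hD.zero g.symm, add_zero] at h2
    exact h1.trans h2
  exact le_antisymm (key h g) (key h.symm g.symm)

/-- a representative of a class -/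
noncomputable def rep (x : MM) : MMSpace := Quot.out x

theorem cls_rep (x : MM) : cls (rep x) = x := Quot.out_eq x

/-- the distance on classes -/
@[instance_reducible]
noncomputable def Good.pem (hD : Good D) : PseudoEMetricSpace MM where
  edist x y := D (rep x) (rep y)
  edist_self _ := hD.zero rfl
  edist_comm _ _ := hD.comm _ _
  edist_triangle _ _ _ := hD.tri _ _ _

theorem Good.top_eq (hD : Good D) :
    topOf D = hD.pem.toUniformSpace.toTopologicalSpace := by
  let _ := hD.pem
  have he : ∀ A B, edist (cls A) (cls B) = D A B := fun A B => hD.congr (cls_rep _) (cls_rep _)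
  refine TopologicalSpace.ext (funext fun U => propext ?_)
  rw [show @IsOpen MM hD.pem.toUniformSpace.toTopologicalSpace U ↔ _ from EMetric.isOpen_iff]
  constructor
  · intro h x hx
    obtain ⟨ε, hε, h1⟩ := h (rep x) (by rwa [cls_rep])
    refine ⟨ε, hε, fun y hy => ?_⟩
    rw [← cls_rep y]
    exact h1 _ (Metric.mem_eball'.1 hy)
  · intro h A hA
    obtain ⟨ε, hε, h1⟩ := h _ hA
    exact ⟨ε, hε, fun B hB => h1 (Metric.mem_eball'.2 (by rwa [he]))⟩

theorem Good.contractible (hD : Good D) :
    @ContractibleSpace {x : MM // x ≠ cls pt} (@instTopologicalSpaceSubtype _ _ (topOf D)) := by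
  rw [hD.top_eq]
  let _ := hD.pem
  have he : ∀ A B, edist (cls A) (cls B) = D A B := fun A B => hD.congr (cls_rep _) (cls_rep _)
  have hc : Continuous fun p : I × MM => cls (HH (rep p.2) p.1) := by
    rw [continuous_iff_continuousAt]
    rintro ⟨t, x⟩
    rw [ContinuousAt, EMetric.tendsto_nhds]
    intro ε hε
    have h2 : 0 < ε / 2 := ENNReal.half_pos hε.ne'
    have h4 : 0 < ε / 2 / 2 := ENNReal.half_pos h2.ne'
    have e1 := (box_HH_time (rep x) t h2).prod_nhds (Metric.eball_mem_nhds x h4)
    filter_upwards [e1] with p ⟨a, b⟩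
    rw [he]
    refine (hD.tri _ (HH (rep x) p.1) _).trans_lt ?_
    rw [← ENNReal.add_halves ε]
    refine ENNReal.add_lt_add ((hD.hh _ _ _).trans_lt ?_) ?_
    · have : D (rep p.2) (rep x) < ε / 2 / 2 := b
      rwa [ENNReal.lt_div_iff_mul_lt (by simp) (by simp), mul_comm] at this
    · rw [hD.comm]
      exact (hD.le_box _ _).trans_lt a
  have hne : ∀ (x : {x : MM // x ≠ cls pt}) (t : I), cls (HH (rep x.1) t) ≠ cls pt :=
    fun x t => HH_ne (by rw [cls_rep]; exact x.2) t
  have h2 : cls two ≠ cls pt := by
    intro h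
    have h1 : IsPt two := (isPt_cls h).2 fun x _ y _ => Subsingleton.elim (α := Unit) x y
    have h3 : IsPt (HH pt 1) := (isPt_iso (iso_one pt)).1 h1
    obtain ⟨a, ha⟩ := supp_nonempty pt
    have h2 := dist_eq_zero.2 (h3 (jH_mem 1 ha true) (jH_mem 1 ha false))
    simp [dist_jH, ee] at h2
  rw [contractible_iff_id_nullhomotopic]
  refine ⟨⟨cls two, h2⟩, ⟨⟨⟨fun p => ⟨cls (HH (rep p.2.1) p.1), hne p.2 p.1⟩, ?_⟩, ?_, ?_⟩⟩⟩
  · exact (hc.comp (continuous_fst.prodMk (continuous_subtype_val.comp continuous_snd))).subtype_mk _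
  · intro x
    exact Subtype.ext ((cls_iso (iso_zero _)).symm.trans (cls_rep _))
  · intro x
    exact Subtype.ext (cls_iso (iso_one _)).symm

end Pool.Agent.P.MP_de432b_gt
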