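import Mathlib

/-!
The space of mm-isomorphism classes of metric measure spaces with the box topology and the
concentration topology. Parameters are defined on the closed unit interval.
-/

namespace Pool.Agent.P.MP_de432b_gt

open MeasureTheory
open scoped ENNReal

/-- A complete separable metric space with a Borel probability measure. -/
structure MMSpace where
  X : Type
  [met : MetricSpace X]
  [cpl : CompleteSpace X]
  [sep : TopologicalSpace.SeparableSpace X]
  [ms : MeasurableSpace X]
  [bor : BorelSpace X]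
  μ : Measure X
  [prob : IsProbabilityMeasure μ]

attribute [instance] MMSpace.met MMSpace.cpl MMSpace.sep MMSpace.ms MMSpace.bor MMSpace.prob

/-- mm-isomorphism: a measure-preserving isometry between the supports. -/
def Iso (A B : MMSpace) : Prop :=
  ∃ f : A.μ.support → B.μ.support, Isometry f ∧
    (A.μ.comap Subtype.val).map f = B.μ.comap Subtype.val

/-- The set of mm-isomorphism classes. -/
def MM : Type 1 := Quot Iso

/-- The class of an mm-space. -/
def cls (A : MMSpace) : MM := Quot.mk Iso A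

/-- The one-point mm-space. -/
noncomputable def pt : MMSpace := { X := Unit, μ := Measure.dirac () }

/-- A parameter: a Borel map from the unit interval pushing Lebesgue measure to the measure. -/
def IsParam (A : MMSpace) (φ : unitInterval → A.X) : Prop :=
  Measurable φ ∧ Measure.map φ volume = A.μ

/-- The box distance. -/
noncomputable def box (A B : MMSpace) : ℝ≥0∞ :=
  sInf {ε : ℝ≥0∞ | ∃ (φ : unitInterval → A.X) (ψ : unitInterval → B.X) (J : Set unitInterval),
    IsParam A φ ∧ IsParam B ψ ∧ MeasurableSet J ∧ 1 - ε ≤ volume J ∧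
      ∀ s ∈ J, ∀ t ∈ J, edist (dist (φ s) (φ t)) (dist (ψ s) (ψ t)) ≤ ε}

/-- The Ky Fan distance. -/
noncomputable def dKF (f g : unitInterval → ℝ) : ℝ≥0∞ :=
  sInf {ε : ℝ≥0∞ | volume {s | ε < edist (f s) (g s)} ≤ ε}

/-- The Hausdorff distance for the Ky Fan distance. -/
noncomputable def dH (S T : Set (unitInterval → ℝ)) : ℝ≥0∞ :=
  max (⨆ f ∈ S, ⨅ g ∈ T, dKF f g) (⨆ g ∈ T, ⨅ f ∈ S, dKF f g)

/-- The pull-backs of the 1-Lipschitz functions. -/
def lipPull (A : MMSpace) (φ : unitInterval → A.X) : Set (unitInterval → ℝ) :=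
  {h | ∃ f : A.X → ℝ, LipschitzWith 1 f ∧ h = f ∘ φ}

/-- The observable distance. -/
noncomputable def dconc (A B : MMSpace) : ℝ≥0∞ :=
  sInf {r : ℝ≥0∞ | ∃ (φ : unitInterval → A.X) (ψ : unitInterval → B.X),
    IsParam A φ ∧ IsParam B ψ ∧ r = dH (lipPull A φ) (lipPull B ψ)}

/-- The topology of a distance `D`: a set of classes is open if with each class it contains a
`D`-ball around it. -/
@[instance_reducible]
def topOf (D : MMSpace → MMSpace → ℝ≥0∞) : TopologicalSpace MM where
  IsOpen U := ∀ A : MMSpace, cls A ∈ U → ∃ ε : ℝ≥0∞, 0 < ε ∧ ∀ B : MMSpace, D A B < ε → cls B ∈ U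
  isOpen_univ := fun _ _ => ⟨1, one_pos, fun _ _ => trivial⟩
  isOpen_inter := fun U V hU hV A hA => by
    obtain ⟨a, ha, h1⟩ := hU A hA.1
    obtain ⟨b, hb, h2⟩ := hV A hA.2
    exact ⟨min a b, lt_min ha hb, fun B hB =>
      ⟨h1 B (hB.trans_le (min_le_left _ _)), h2 B (hB.trans_le (min_le_right _ _))⟩⟩
  isOpen_sUnion := fun S hS A ⟨U, hU, hA⟩ => by
    obtain ⟨a, ha, h1⟩ := hS U hU A hA
    exact ⟨a, ha, fun B hB => ⟨U, hU, h1 B hB⟩⟩

end Pool.Agent.P.MP_de432b_gt
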