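import Pool.Agent.P.MP_de432b_gt.Basic

/-! The homotopy `((1 - t) A) × (t · two points)` and the contractibility of the punctured
space. -/

namespace Pool.Agent.P.MP_de432b_gt

open MeasureTheory Set ProbabilityTheory unitInterval Filter Topology
open scoped ENNReal

/-- the two points of the real line -/
def ee (b : Bool) : ℝ := if b then 1 else 0

/-- the product with two points, to be given a weighted sum of the metrics -/
def W (A : MMSpace) (_t : I) : Type := A.X × Bool

noncomputable instance (A : MMSpace) (t : I) : PseudoMetricSpace (W A t) where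
  dist p q := (1 - (t : ℝ)) * dist p.1 q.1 + (t : ℝ) * dist (ee p.2) (ee q.2)
  dist_self p := by simp
  dist_comm p q := by rw [dist_comm p.1, dist_comm (ee p.2)]
  dist_triangle p q r := by
    have h1 := dist_triangle p.1 q.1 r.1
    have h2 := dist_triangle (ee p.2) (ee q.2) (ee r.2)
    have h3 := t.2.1
    have h4 := t.2.2
    nlinarith

/-- the identity map -/
def toW (A : MMSpace) (t : I) (p : A.X × Bool) : W A t := p

theorem dist_toW (A : MMSpace) (t : I) (p q : A.X × Bool) : dist (toW A t p) (toW A t q) =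
    (1 - (t : ℝ)) * dist p.1 q.1 + (t : ℝ) * dist (ee p.2) (ee q.2) := rfl

theorem continuous_toW (A : MMSpace) (t : I) : Continuous (toW A t) := by
  rw [continuous_iff_continuous_dist]
  simp only [dist_toW]
  have : Continuous ee := continuous_of_discreteTopology
  fun_prop

instance (A : MMSpace) (t : I) : TopologicalSpace.SeparableSpace (W A t) :=
  DenseRange.separableSpace (f := toW A t) (Function.Surjective.denseRange fun p => ⟨p, rfl⟩)
    (continuous_toW A t)

/-- the uniform measure on two points -/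
noncomputable def nu : Measure Bool := (PMF.uniformOfFintype Bool).toMeasure

instance : IsProbabilityMeasure nu := by unfold nu; infer_instance

theorem nu_pos (b : Bool) : 0 < nu {b} := by
  unfold nu
  rw [PMF.toMeasure_apply_singleton _ _ (measurableSet_singleton _)]
  simp

/-- the map into the completion -/
noncomputable def jj (A : MMSpace) (t : I) (p : A.X × Bool) : UniformSpace.Completion (W A t) :=
  (toW A t p : W A t)

theorem continuous_jj (A : MMSpace) (t : I) : Continuous (jj A t) :=
  (UniformSpace.Completion.continuous_coe _).comp (continuous_toW A t)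

/-- the space `((1 - t) A) × (t · two points)` -/
noncomputable def HH (A : MMSpace) (t : I) : MMSpace :=
  letI : MeasurableSpace (UniformSpace.Completion (W A t)) := borel _
  haveI : BorelSpace (UniformSpace.Completion (W A t)) := ⟨rfl⟩
  haveI : IsProbabilityMeasure ((A.μ.prod nu).map (jj A t)) :=
    Measure.isProbabilityMeasure_map (continuous_jj A t).measurable.aemeasurable
  { X := UniformSpace.Completion (W A t), μ := (A.μ.prod nu).map (jj A t) }

/-- the map into the space -/
noncomputable def jH (A : MMSpace) (t : I) : A.X × Bool → (HH A t).X := jj A t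

theorem continuous_jH (A : MMSpace) (t : I) : Continuous (jH A t) := continuous_jj A t

theorem jH_mp (A : MMSpace) (t : I) : MeasurePreserving (jH A t) (A.μ.prod nu) (HH A t).μ :=
  ⟨(continuous_jH A t).measurable, rfl⟩

theorem dist_jH (A : MMSpace) (t : I) (p q : A.X × Bool) : dist (jH A t p) (jH A t q) =
    (1 - (t : ℝ)) * dist p.1 q.1 + (t : ℝ) * dist (ee p.2) (ee q.2) :=
  UniformSpace.Completion.dist_eq (toW A t p) (toW A t q)

theorem param_HH {A : MMSpace} (t : I) {φ : I → A.X} (hφ : IsParam A φ) {η : I → I × Bool}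
    (hη : MeasurePreserving η volume ((volume : Measure I).prod nu)) :
    IsParam (HH A t) fun s => jH A t (φ (η s).1, (η s).2) :=
  isParam_of_mp ((jH_mp A t).comp ((hφ.mp.prod (MeasurePreserving.id nu)).comp hη))

theorem fst_mp {η : I → I × Bool}
    (hη : MeasurePreserving η volume ((volume : Measure I).prod nu)) :
    MeasurePreserving (fun s => (η s).1) volume volume := measurePreserving_fst.comp hη

theorem box_HH (A B : MMSpace) (t : I) : box (HH A t) (HH B t) ≤ box A B := by
  refine le_box fun ε φ ψ J h1 h2 h3 h4 h5 => ?_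
  obtain ⟨η, hη⟩ := exists_mp ((volume : Measure I).prod nu)
  refine box_le (J := (fun s => (η s).1) ⁻¹' J) (param_HH t h1 hη) (param_HH t h2 hη) ?_ ?_
  · rw [← preimage_compl, (fst_mp hη).measure_preimage h3.compl.nullMeasurableSet]
    exact h4
  · intro s hs u hu
    refine le_trans ?_ (h5 _ hs _ hu)
    rw [dist_jH, dist_jH, edist_dist, edist_dist]
    refine ENNReal.ofReal_le_ofReal ?_
    rw [dist_add_right, Real.dist_eq, Real.dist_eq, ← mul_sub, abs_mul,
      abs_of_nonneg (sub_nonneg.2 t.2.2)]
    exact mul_le_of_le_one_left (abs_nonneg _) (by linarith [t.2.1])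

theorem dist_ee_le (b c : Bool) : dist (ee b) (ee c) ≤ 1 := by
  cases b <;> cases c <;> simp [ee]

theorem box_HH_time (A : MMSpace) (t : I) {ε : ℝ≥0∞} (hε : 0 < ε) :
    ∀ᶠ t' in 𝓝 t, box (HH A t) (HH A t') < ε := by
  obtain ⟨e, he, hlt⟩ : ∃ e : ℝ, 0 < e ∧ ENNReal.ofReal e < ε := by
    obtain ⟨r, h1, h2⟩ := ENNReal.lt_iff_exists_nnreal_btwn.1 hε
    exact ⟨r, by exact_mod_cast h1, by simpa using h2⟩
  obtain ⟨φ, hφ⟩ := exists_param A
  obtain ⟨η, hη⟩ := exists_mp ((volume : Measure I).prod nu)
  obtain ⟨x0⟩ : Nonempty A.X := inferInstance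
  obtain ⟨R, hR⟩ : ∃ R : ℕ, A.μ (Metric.ball x0 R)ᶜ ≤ ENNReal.ofReal e := by
    have h1 := tendsto_measure_iInter_atTop (μ := A.μ)
      (s := fun n : ℕ => (Metric.ball x0 n)ᶜ)
      (fun n => measurableSet_ball.compl.nullMeasurableSet)
      (fun a b hab => compl_subset_compl.2 (Metric.ball_subset_ball (by exact_mod_cast hab)))
      ⟨0, measure_ne_top _ _⟩
    rw [← compl_iUnion, Metric.iUnion_ball_nat, compl_univ, measure_empty] at h1
    exact (h1.eventually (ge_mem_nhds (ENNReal.ofReal_pos.2 he))).exists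
  have hpos : 0 < e / (2 * R + 1) := by positivity
  filter_upwards [Metric.ball_mem_nhds t hpos] with t' ht'
  refine lt_of_le_of_lt (box_le (J := (fun s => φ (η s).1) ⁻¹' Metric.ball x0 R)
    (param_HH t hφ hη) (param_HH t' hφ hη) ?_ ?_) hlt
  · rw [← preimage_compl]
    exact ((hφ.mp.comp (fst_mp hη)).measure_preimage
      measurableSet_ball.compl.nullMeasurableSet).trans_le hR
  · intro s hs u hu
    rw [edist_le_ofReal he.le, dist_jH, dist_jH, Real.dist_eq]
    rw [Metric.mem_ball, Subtype.dist_eq, Real.dist_eq, lt_div_iff₀ (by positivity)] at ht'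
    have h1 : dist (φ (η s).1) (φ (η u).1) ≤ 2 * R := by
      have := dist_triangle_right (φ (η s).1) (φ (η u).1) x0
      have a : dist (φ (η s).1) x0 < R := hs
      have b : dist (φ (η u).1) x0 < R := hu
      linarith
    have h2 := dist_ee_le (η s).2 (η u).2
    have h3 : 0 ≤ dist (φ (η s).1) (φ (η u).1) := dist_nonneg
    have h4 : 0 ≤ dist (ee (η s).2) (ee (η u).2) := dist_nonneg
    simp only
    generalize dist (φ (η s).1) (φ (η u).1) = a at *
    generalize dist (ee (η s).2) (ee (η u).2) = b at *
    have e1 : (1 - (t : ℝ)) * a + t * b - ((1 - t') * a + t' * b) = ((t' : ℝ) - t) * (a - b) := by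
      ring
    rw [e1, abs_mul]
    have h5 : |a - b| ≤ 2 * R + 1 := by rw [abs_le]; constructor <;> linarith
    exact (mul_le_mul_of_nonneg_left h5 (abs_nonneg _)).trans ht'.le

theorem half_scale {A B : MMSpace} {φ : I → A.X} {ψ : I → B.X} {ε : ℝ≥0∞} (h : half φ ψ < ε)
    {a : ℝ} (ha0 : 0 ≤ a) (ha1 : a ≤ 1) (f : A.X → ℝ) (hf : ∀ x y, f x - f y ≤ a * dist x y) :
    ∃ g : B.X → ℝ, (∀ x y, g x - g y ≤ a * dist x y) ∧
      volume {s | ε < edist (f (φ s)) (g (ψ s))} ≤ ε := by
  rcases ha0.eq_or_lt with rfl | ha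
  · obtain ⟨x0⟩ : Nonempty A.X := inferInstance
    refine ⟨fun _ => f x0, by simp, ?_⟩
    have : ∀ x, f x = f x0 := fun x => by linarith [hf x x0, hf x0 x]
    simp [this]
  · obtain ⟨g, hg, h1⟩ := half_lt h (fun x => f x / a) (LipschitzWith.of_le_add fun x y => by
      rw [← sub_le_iff_le_add', ← sub_div, div_le_iff₀ ha]
      linarith [hf x y])
    refine ⟨fun y => a * g y, fun x y => ?_, le_trans (measure_mono ?_) (dKF_lt h1)⟩
    · have := hg.dist_le_mul x y
      rw [Real.dist_eq, NNReal.coe_one, one_mul, abs_le] at this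
      rw [← mul_sub]
      exact mul_le_mul_of_nonneg_left this.2 ha.le
    · intro s hs
      rw [mem_ofPred_eq] at hs ⊢
      refine lt_of_lt_of_le hs ?_
      rw [edist_dist, edist_dist]
      refine ENNReal.ofReal_le_ofReal ?_
      simp only [Function.comp, Real.dist_eq]
      have : f (φ s) - a * g (ψ s) = a * (f (φ s) / a - g (ψ s)) := by field_simp
      rw [this, abs_mul, abs_of_pos ha]
      exact mul_le_of_le_one_left (abs_nonneg _) ha1

theorem half_HH {A B : MMSpace} (t : I) {φ : I → A.X} {ψ : I → B.X} (hφ : IsParam A φ)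
    (hψ : IsParam B ψ) {η : I → I × Bool}
    (hη : MeasurePreserving η volume ((volume : Measure I).prod nu)) :
    half (A := HH A t) (B := HH B t) (fun s => jH A t (φ (η s).1, (η s).2))
      (fun s => jH B t (ψ (η s).1, (η s).2)) ≤ 2 * half φ ψ := by
  refine half_le fun f hf ε2 hε2 => ?_
  obtain ⟨ε, hε, hε'⟩ : ∃ ε, half φ ψ < ε ∧ ε + ε ≤ ε2 := by
    refine ⟨ε2 / 2, ?_, (ENNReal.add_halves _).le⟩
    rwa [ENNReal.lt_div_iff_mul_lt (by simp) (by simp), mul_comm]
  have ht0 := t.2.1
  have ht1 := t.2.2
  have hf' : ∀ p q, f (jH A t p) - f (jH A t q) ≤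
      (1 - (t : ℝ)) * dist p.1 q.1 + (t : ℝ) * dist (ee p.2) (ee q.2) := by
    intro p q
    have := hf.dist_le_mul (jH A t p) (jH A t q)
    rw [Real.dist_eq, NNReal.coe_one, one_mul, abs_le, dist_jH] at this
    exact this.2
  have hfb : ∀ b x y, f (jH A t (x, b)) - f (jH A t (y, b)) ≤ (1 - (t : ℝ)) * dist x y := by
    intro b x y
    simpa using hf' (x, b) (y, b)
  obtain ⟨g0, hg0, m0⟩ := half_scale hε (by linarith) (by linarith) _ (hfb false)
  obtain ⟨g1, hg1, m1⟩ := half_scale hε (by linarith) (by linarith) _ (hfb true)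
  have cont : ∀ g : B.X → ℝ, (∀ x y, g x - g y ≤ (1 - (t : ℝ)) * dist x y) → Continuous g := by
    intro g hg
    refine (LipschitzWith.of_le_add (f := g) fun x y => ?_).continuous
    have := hg x y
    nlinarith [dist_nonneg (x := x) (y := y)]
  set h : B.X × Bool → ℝ := fun q =>
    if q.2 then max (g0 q.1 - t) (min (g1 q.1) (g0 q.1 + t)) else g0 q.1 with hh
  obtain ⟨g, hg, hgh⟩ := exists_ext (jH B t) h (e := 0) (by
    rintro ⟨x, b⟩ ⟨y, c⟩
    rw [dist_jH, add_zero]
    have a0 := hg0 x y
    have a1 := hg1 x y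
    cases b <;> cases c <;>
      simp only [hh, ee, Bool.false_eq_true, if_false, if_true, dist_self, mul_zero, add_zero,
        dist_zero_left, dist_zero_right, norm_one, mul_one]
    · exact a0
    · linarith [le_max_left (g0 y - t) (min (g1 y) (g0 y + t))]
    · have : max (g0 x - t) (min (g1 x) (g0 x + t)) ≤ g0 x + t :=
        max_le (by linarith) (min_le_right _ _)
      linarith
    · rw [sub_le_iff_le_add]
      refine max_le (by linarith [le_max_left (g0 y - t) (min (g1 y) (g0 y + t))]) ?_
      have : min (g1 x) (g0 x + t) ≤ (1 - (t : ℝ)) * dist x y + min (g1 y) (g0 y + t) := by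
        rw [← min_add_add_left]
        exact min_le_min (by linarith) (by linarith)
      linarith [le_max_right (g0 y - t) (min (g1 y) (g0 y + t))])
  have hgh' : ∀ q, g (jH B t q) = h q := fun q => by
    have := hgh q
    rw [abs_nonpos_iff] at this
    linarith
  refine ⟨g, hg, dKF_le ?_⟩
  have hfc : ∀ b, Measurable fun s => f (jH A t (φ s, b)) := fun b =>
    (hf.continuous.comp (continuous_jH A t)).measurable.comp (hφ.1.prodMk measurable_const)
  have b0 : MeasurableSet {s | ε < edist (f (jH A t (φ s, false))) (g0 (ψ s))} :=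
    measurableSet_lt measurable_const ((hfc _).edist ((cont _ hg0).measurable.comp hψ.1))
  have b1 : MeasurableSet {s | ε < edist (f (jH A t (φ s, true))) (g1 (ψ s))} :=
    measurableSet_lt measurable_const ((hfc _).edist ((cont _ hg1).measurable.comp hψ.1))
  have hm := (fst_mp hη).measure_preimage (b0.union b1).nullMeasurableSet
  refine le_trans (measure_mono ?_) (hm.trans_le ((measure_union_le _ _).trans
    ((add_le_add m0 m1).trans hε')))
  intro s hs
  by_contra hn
  simp only [mem_preimage, mem_union, mem_ofPred_eq, not_or, not_lt, Function.comp] at hn hs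
  refine absurd (le_trans ?_ (le_self_add.trans hε')) (not_le.2 hs)
  rw [hgh']
  obtain ⟨n0, n1⟩ := hn
  cases hb : (η s).2
  · simpa [hh] using n0
  · by_cases htop : ε = ⊤
    · simp [htop]
    obtain ⟨e, he, rfl⟩ : ∃ e : ℝ, 0 ≤ e ∧ ε = ENNReal.ofReal e :=
      ⟨ε.toReal, ENNReal.toReal_nonneg, (ENNReal.ofReal_toReal htop).symm⟩
    rw [edist_le_ofReal he, Real.dist_eq, abs_le] at n0 n1 ⊢
    have c1 := hf' (φ (η s).1, true) (φ (η s).1, false)
    have c2 := hf' (φ (η s).1, false) (φ (η s).1, true)
    simp only [ee, Bool.false_eq_true, if_false, if_true, dist_self, mul_zero, zero_add,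
      dist_zero_left, dist_zero_right, norm_one, mul_one] at c1 c2
    simp only [hh, if_true]
    constructor
    · have : max (g0 (ψ (η s).1) - t) (min (g1 (ψ (η s).1)) (g0 (ψ (η s).1) + t)) ≤
          f (jH A t (φ (η s).1, true)) + e :=
        max_le (by linarith) ((min_le_left _ _).trans (by linarith))
      linarith
    · have : f (jH A t (φ (η s).1, true)) - e ≤
          max (g0 (ψ (η s).1) - t) (min (g1 (ψ (η s).1)) (g0 (ψ (η s).1) + t)) :=
        le_max_of_le_right (le_min (by linarith) (by linarith))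
      linarith

theorem dconc_HH (A B : MMSpace) (t : I) : dconc (HH A t) (HH B t) ≤ 2 * dconc A B := by
  obtain ⟨η, hη⟩ := exists_mp ((volume : Measure I).prod nu)
  rw [mul_comm, ← ENNReal.div_le_iff (by simp) (by simp)]
  refine le_dconc fun φ ψ h1 h2 => ?_
  rw [ENNReal.div_le_iff (by simp) (by simp), mul_comm]
  refine dconc_le (param_HH t h1 hη) (param_HH t h2 hη) ((half_HH t h1 h2 hη).trans ?_)
    ((half_HH t h2 h1 hη).trans ?_)
  · gcongr
    exact le_max_left _ _
  · gcongr
    exact le_max_right _ _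

end Pool.Agent.P.MP_de432b_gt
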